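import Mathlib

/-!
# Koszul sums of binomial coefficients with complex exponents

Core lemmas for `MP_014caa_ag.FanoIndex`.
-/

set_option autoImplicit false

namespace Pool.Agent.J4.H6.CI

open Finset Polynomial

/-- the binomial coefficient `C(x, m)` -/
noncomputable def cb (x : ℂ) (m : ℕ) : ℂ := (∏ e ∈ range m, (x - e)) / m.factorial

lemma cb_pascal (x : ℂ) (m : ℕ) : cb (x + 1) (m + 1) = cb x (m + 1) + cb x m := by
  have h1 : ∏ e ∈ range (m + 1), (x + 1 - (e : ℂ)) = (∏ e ∈ range m, (x - e)) * (x + 1) := by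
    rw [prod_range_succ']
    congr 1
    · refine prod_congr rfl fun e _ => ?_
      push_cast
      ring
    · simp
  have h2 : ((m + 1).factorial : ℂ) = (m + 1) * m.factorial := by
    rw [Nat.factorial_succ]
    push_cast
    ring
  have h3 : (m.factorial : ℂ) ≠ 0 := by exact_mod_cast m.factorial_ne_zero
  have h4 : (m + 1 : ℂ) ≠ 0 := by exact_mod_cast m.succ_ne_zero
  unfold cb
  rw [h1, prod_range_succ, h2]
  field_simp
  ring

/-- iterated Pascal: if a linear functional kills `C(T + τ, N)` for `τ ≤ D` then it kills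
`C(T, N - a)` for `a ≤ D`, `a ≤ N` -/
lemma pascal_descend {ι : Type} (A : Finset ι) (w T : ι → ℂ) (N D : ℕ)
    (h : ∀ τ : ℕ, τ ≤ D → ∑ s ∈ A, w s * cb (T s + τ) N = 0) :
    ∀ a : ℕ, a ≤ N → ∀ τ : ℕ, τ + a ≤ D → ∑ s ∈ A, w s * cb (T s + τ) (N - a) = 0 := by
  intro a
  induction a with
  | zero =>
    intro _ τ hτ
    exact h τ (by omega)
  | succ a ih =>
    intro ha τ hτ
    have h1 := ih (by omega) τ (by omega)
    have h2 := ih (by omega) (τ + 1) (by omega)
    obtain ⟨m, hm⟩ : ∃ m, N - a = m + 1 := ⟨N - a - 1, by omega⟩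
    have hm' : N - (a + 1) = m := by omega
    rw [hm] at h1 h2
    rw [hm']
    have h3 : ∑ s ∈ A, w s * cb (T s + ((τ + 1 : ℕ) : ℂ)) (m + 1) =
        ∑ s ∈ A, w s * cb (T s + τ) (m + 1) + ∑ s ∈ A, w s * cb (T s + τ) m := by
      rw [← sum_add_distrib]
      refine sum_congr rfl fun s _ => ?_
      have : T s + ((τ + 1 : ℕ) : ℂ) = T s + τ + 1 := by push_cast; ring
      rw [this, cb_pascal]
      ring
    rw [h2, h1] at h3
    simpa using h3.symm

/-- the product `x (x - 1) ... (x - κ + 1)` -/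
noncomputable def fall (x : ℂ) (κ : ℕ) : ℂ := ∏ e ∈ range κ, (x - e)

/-- if the functional kills `C(T, κ + b)` for `b ≤ D` then it kills `T (T - 1) ... (T - κ + 1) g(T)`
for all polynomials `g` of degree at most `D` -/
lemma newton {ι : Type} (A : Finset ι) (w T : ι → ℂ) (κ D : ℕ)
    (h : ∀ b : ℕ, b ≤ D → ∑ s ∈ A, w s * cb (T s) (κ + b) = 0) :
    ∀ m : ℕ, m ≤ D → ∀ g : ℂ[X], g.natDegree ≤ m →
      ∑ s ∈ A, w s * (fall (T s) κ * g.eval (T s)) = 0 := by
  have hN : ∀ b : ℕ, b ≤ D →
      ∑ s ∈ A, w s * (fall (T s) κ * (∏ f ∈ range b, (X - C ((κ : ℂ) + f))).eval (T s)) = 0 := by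
    intro b hb
    have h1 := h b hb
    have h2 : ∀ s, cb (T s) (κ + b) =
        fall (T s) κ * (∏ f ∈ range b, (X - C ((κ : ℂ) + f))).eval (T s) *
          ((κ + b).factorial : ℂ)⁻¹ := by
      intro s
      unfold cb fall
      rw [prod_range_add, eval_prod, div_eq_mul_inv]
      congr 2
      refine prod_congr rfl fun f _ => ?_
      simp
    have h3 : ((κ + b).factorial : ℂ)⁻¹ ≠ 0 :=
      inv_ne_zero (by exact_mod_cast (κ + b).factorial_ne_zero)
    have h4 : (∑ s ∈ A, w s * (fall (T s) κ *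
        (∏ f ∈ range b, (X - C ((κ : ℂ) + f))).eval (T s))) * ((κ + b).factorial : ℂ)⁻¹ = 0 := by
      rw [sum_mul, ← h1]
      refine sum_congr rfl fun s _ => ?_
      rw [h2 s]
      ring
    exact (mul_eq_zero.mp h4).resolve_right h3
  have hmon : ∀ b : ℕ, (∏ f ∈ range b, (X - C ((κ : ℂ) + f)) : ℂ[X]).Monic :=
    fun b => monic_prod_of_monic _ _ fun f _ => monic_X_sub_C _
  have hdeg : ∀ b : ℕ, (∏ f ∈ range b, (X - C ((κ : ℂ) + f)) : ℂ[X]).natDegree = b := by
    intro b
    rw [natDegree_prod_of_monic _ _ fun f _ => monic_X_sub_C _]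
    simp only [natDegree_X_sub_C, sum_const, card_range, smul_eq_mul, mul_one]
  intro m
  induction m with
  | zero =>
    intro _ g hg
    have h1 := hN 0 (Nat.zero_le _)
    rw [eq_C_of_natDegree_le_zero hg]
    simp only [range_zero, prod_empty, eval_one, mul_one] at h1
    simp only [eval_C]
    calc ∑ s ∈ A, w s * (fall (T s) κ * g.coeff 0)
        = (∑ s ∈ A, w s * fall (T s) κ) * g.coeff 0 := by
          rw [sum_mul]
          refine sum_congr rfl fun s _ => by ring
      _ = 0 := by rw [h1, zero_mul]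
  | succ m ih =>
    intro hm g hg
    set p : ℂ[X] := ∏ f ∈ range (m + 1), (X - C ((κ : ℂ) + f)) with hp
    set a : ℂ := g.coeff (m + 1) with ha
    have h1 : (g - C a * p).natDegree ≤ m := by
      rw [natDegree_le_iff_coeff_eq_zero]
      intro k hk
      rcases Nat.lt_or_ge (m + 1) k with h | h
      · rw [coeff_sub, coeff_C_mul, coeff_eq_zero_of_natDegree_lt (lt_of_le_of_lt hg h),
          coeff_eq_zero_of_natDegree_lt (by rw [hdeg]; exact h)]
        simp
      · have hk' : k = m + 1 := by omega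
        have h2 : p.coeff (m + 1) = 1 := by
          have := (hmon (m + 1)).coeff_natDegree
          rwa [hdeg] at this
        rw [hk', coeff_sub, coeff_C_mul, h2]
        simp [ha]
    have h2 := ih (by omega) _ h1
    have h3 := hN (m + 1) hm
    rw [← hp] at h3
    have h4 : ∀ s, w s * (fall (T s) κ * g.eval (T s)) =
        w s * (fall (T s) κ * (g - C a * p).eval (T s)) +
          a * (w s * (fall (T s) κ * p.eval (T s))) := by
      intro s
      rw [eval_sub, eval_mul, eval_C]
      ring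
    rw [sum_congr rfl fun s _ => h4 s, sum_add_distrib, h2, ← mul_sum, h3]
    simp

/-- **The zero estimate.** If the functional kills `C(T, κ + b)` for `b ≤ D`, and there are at
most `D + 1` exponents, then the weights of the exponents outside `{0, ..., κ - 1}` vanish. -/
lemma zero_estimate {ι : Type} [DecidableEq ι] (A : Finset ι) (w T : ι → ℂ) (κ D : ℕ)
    (h : ∀ b : ℕ, b ≤ D → ∑ s ∈ A, w s * cb (T s) (κ + b) = 0)
    (hA : A.card ≤ D + 1) (γ : ℂ) (hγ : ∀ e : ℕ, e < κ → γ ≠ e) :
    ∑ s ∈ A with T s = γ, w s = 0 := by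
  classical
  by_cases hmem : γ ∈ A.image T
  · set V := (A.image T).erase γ with hV
    have hVc : V.card ≤ D := by
      rw [hV, card_erase_of_mem hmem]
      have := (card_image_le (s := A) (f := T)).trans hA
      omega
    set g : ℂ[X] := ∏ v ∈ V, (X - C v) with hg
    have hgd : g.natDegree ≤ D := by
      rw [hg, natDegree_prod_of_monic _ _ fun f _ => monic_X_sub_C _]
      simpa using hVc
    have h1 := newton A w T κ D h D le_rfl g hgd
    have h2 : ∑ s ∈ A, w s * (fall (T s) κ * g.eval (T s)) =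
        (∑ s ∈ A with T s = γ, w s) * (fall γ κ * g.eval γ) := by
      rw [sum_mul, sum_filter]
      refine sum_congr rfl fun s hs => ?_
      by_cases hsγ : T s = γ
      · rw [if_pos hsγ, hsγ]
      · rw [if_neg hsγ]
        have h3 : g.eval (T s) = 0 := by
          rw [hg, eval_prod]
          refine prod_eq_zero (i := T s) ?_ (by simp)
          rw [hV, mem_erase]
          exact ⟨hsγ, mem_image_of_mem T hs⟩
        rw [h3]
        ring
    rw [h2] at h1
    have h3 : fall γ κ ≠ 0 := by
      unfold fall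
      rw [prod_ne_zero_iff]
      intro e he
      exact sub_ne_zero.mpr (hγ e (mem_range.mp he))
    have h4 : g.eval γ ≠ 0 := by
      rw [hg, eval_prod, prod_ne_zero_iff]
      intro v hv
      simp only [eval_sub, eval_X, eval_C]
      exact sub_ne_zero.mpr fun h => (mem_erase.mp hv).1 h.symm
    exact (mul_eq_zero.mp h1).resolve_right (mul_ne_zero h3 h4)
  · refine sum_eq_zero fun s hs => ?_
    rw [mem_filter] at hs
    exact absurd (hs.2 ▸ mem_image_of_mem T hs.1) hmem

end Pool.Agent.J4.H6.CI
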