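import Mathlib
import Pool.Agent.J4.H6.CI.Core

/-!
# Periodic products of exponentials
-/

set_option autoImplicit false

namespace Pool.Agent.J4.H6.CI

open Finset Polynomial

lemma rat_of_mul {x : ℂ} {a b : ℤ} (ha : a ≠ 0) (h : x * a = b) : ∃ q : ℚ, x = q := by
  refine ⟨(b : ℚ) / a, ?_⟩
  have : (a : ℂ) ≠ 0 := by exact_mod_cast ha
  push_cast
  rw [eq_div_iff this]
  exact h

lemma int_of_rat {x : ℂ} (hx : IsIntegral ℤ x) (hq : ∃ q : ℚ, x = q) : ∃ n : ℤ, x = n := by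
  obtain ⟨q, rfl⟩ := hq
  have h1 : IsIntegral ℤ (algebraMap ℚ ℂ q) := by simpa using hx
  have h2 : IsIntegral ℤ q := by
    rwa [isIntegral_algebraMap_iff (algebraMap ℚ ℂ).injective] at h1
  obtain ⟨n, hn⟩ := IsIntegrallyClosed.isIntegral_iff.mp h2
  refine ⟨n, ?_⟩
  rw [← hn]
  simp

/-- If `∏ (1 - e^(-b_j z))` has the period `2 π i` and the `b_j` are nonzero algebraic integers, then
the `b_j` are integers. -/
theorem int_of_periodic {r : ℕ} (b : Fin r → ℂ) (hb : ∀ j, IsIntegral ℤ (b j))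
    (hb0 : ∀ j, b j ≠ 0)
    (hper : ∀ z : ℂ, ∏ j, (1 - Complex.exp (-(b j * (z + 2 * Real.pi * Complex.I)))) =
      ∏ j, (1 - Complex.exp (-(b j * z)))) (j₀ : Fin r) : ∃ n : ℤ, b j₀ = n := by
  set p : ℂ := 2 * Real.pi * Complex.I with hp
  have hp0 : p ≠ 0 := by
    rw [hp]
    exact Complex.two_pi_I_ne_zero
  -- the zeros
  have hz : ∀ z : ℂ, ∏ j, (1 - Complex.exp (-(b j * z))) = 0 →
      ∃ (j : Fin r) (n : ℤ), b j * z = n * p := by
    intro z h
    obtain ⟨j, -, hj⟩ := prod_eq_zero_iff.mp h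
    have h1 : Complex.exp (-(b j * z)) = 1 := (sub_eq_zero.mp hj).symm
    obtain ⟨n, hn⟩ := Complex.exp_eq_one_iff.mp h1
    refine ⟨j, -n, ?_⟩
    push_cast
    linear_combination -hn
  have h0 : ∏ j, (1 - Complex.exp (-(b j * (p / b j₀)))) = 0 := by
    refine prod_eq_zero (mem_univ j₀) ?_
    have h1 : -(b j₀ * (p / b j₀)) = ((-1 : ℤ) : ℂ) * p := by
      field_simp [hb0 j₀]
      push_cast
      ring
    rw [h1, Complex.exp_eq_one_iff.mpr ⟨-1, rfl⟩]
    simp
  have h1 : ∀ l : ℕ, ∏ j, (1 - Complex.exp (-(b j * (p / b j₀ + l * p)))) = 0 := by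
    intro l
    induction l with
    | zero => simpa using h0
    | succ l ih =>
      have h2 : p / b j₀ + ((l + 1 : ℕ) : ℂ) * p = (p / b j₀ + l * p) + p := by
        push_cast
        ring
      rw [h2, hper]
      exact ih
  choose J n hJ using fun l => hz _ (h1 l)
  obtain ⟨l, l', hne, hl⟩ := Finite.exists_ne_map_eq_of_infinite J
  have h3 := hJ l
  have h4 := hJ l'
  rw [← hl] at h4
  have h5 : b (J l) * (((l : ℤ) - l' : ℤ) : ℂ) = ((n l - n l' : ℤ) : ℂ) := by
    have : (b (J l) * (((l : ℤ) - l' : ℤ) : ℂ) - ((n l - n l' : ℤ) : ℂ)) * p = 0 := by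
      push_cast
      linear_combination h3 - h4
    exact sub_eq_zero.mp ((mul_eq_zero.mp this).resolve_right hp0)
  have hll : ((l : ℤ) - l') ≠ 0 := by
    intro h
    exact hne (by omega)
  obtain ⟨q, hq⟩ := rat_of_mul hll h5
  have hq0 : (q : ℂ) ≠ 0 := hq ▸ hb0 (J l)
  refine int_of_rat (hb j₀) ?_
  -- 1 / b j₀ is rational
  have h6 : b (J l) * (1 / b j₀ + l) = n l := by
    have : (b (J l) * (1 / b j₀ + l) - n l) * p = 0 := by
      linear_combination h3
    exact sub_eq_zero.mp ((mul_eq_zero.mp this).resolve_right hp0)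
  have h7 : 1 / b j₀ = ((n l / q - l : ℚ) : ℂ) := by
    rw [hq] at h6
    push_cast
    field_simp
    field_simp at h6
    linear_combination h6
  refine ⟨(n l / q - l)⁻¹, ?_⟩
  rw [Rat.cast_inv, ← h7]
  simp

end Pool.Agent.J4.H6.CI
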