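import Mathlib
import Pool.Agent.J4.H6.CI.Core
import Pool.Agent.J4.H6.CI.Per

/-!
# Koszul sums which vanish at sufficiently many consecutive integers have integral exponents
-/

set_option autoImplicit false

namespace Pool.Agent.J4.H6.CI

open Finset Polynomial

/-- `χ(ℙ^N, O(x)) = (x + 1) ... (x + N) / N!`. -/
noncomputable def chiPN (N : ℕ) (x : ℂ) : ℂ := (∏ j ∈ range N, (x + j + 1)) / N.factorial

/-- the Koszul sum -/
noncomputable def chiX (N : ℕ) {r : ℕ} (β : Fin r → ℂ) (x : ℂ) : ℂ :=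
  ∑ S : Finset (Fin r), (-1) ^ S.card * chiPN N (x - ∑ j ∈ S, β j)

lemma chiPN_eq_cb (N : ℕ) (x : ℂ) : chiPN N x = cb (x + N) N := by
  unfold chiPN cb
  congr 1
  rw [← prod_range_reflect]
  refine prod_congr rfl fun j hj => ?_
  have hj' := mem_range.mp hj
  rw [Nat.sub_sub, Nat.cast_sub (by omega)]
  push_cast
  ring

lemma chiPN_symm (N : ℕ) (x : ℂ) : chiPN N (-N - 1 - x) = (-1) ^ N * chiPN N x := by
  unfold chiPN
  rw [← mul_div_assoc]
  congr 1
  have h1 : ∏ j ∈ range N, (x + (j : ℂ) + 1) = ∏ j ∈ range N, (x + N - j) := by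
    rw [← prod_range_reflect]
    refine prod_congr rfl fun j hj => ?_
    have hj' := mem_range.mp hj
    rw [Nat.sub_sub, Nat.cast_sub (by omega)]
    push_cast
    ring
  rw [h1]
  have h2 : ((-1 : ℂ)) ^ N = ∏ _j ∈ range N, (-1 : ℂ) := by simp
  rw [h2, ← prod_mul_distrib]
  refine prod_congr rfl fun j _ => by ring

/-- `χ(ℙ^N, O(x)) = 0` for `-N ≤ x ≤ -1` -/
lemma chiPN_zero (N : ℕ) (x : ℤ) (h1 : -(N : ℤ) ≤ x) (h2 : x ≤ -1) : chiPN N (x : ℂ) = 0 := by
  unfold chiPN
  rw [prod_eq_zero (i := (-x - 1).toNat)]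
  · simp
  · rw [mem_range]
    omega
  · have : (((-x - 1).toNat : ℤ) : ℂ) = -x - 1 := by
      rw [Int.toNat_of_nonneg (by omega)]
      push_cast
      ring
    rw [show (((-x - 1).toNat : ℕ) : ℂ) = (((-x - 1).toNat : ℤ) : ℂ) by push_cast; rfl, this]
    ring

lemma chiPN_at_zero (N : ℕ) : chiPN N 0 = 1 := by
  unfold chiPN
  have h1 : ∏ j ∈ range N, ((0 : ℂ) + j + 1) = N.factorial := by
    rw [← prod_range_add_one_eq_factorial]
    push_cast
    refine prod_congr rfl fun j _ => by ring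
  rw [h1]
  have h3 : (N.factorial : ℂ) ≠ 0 := by exact_mod_cast N.factorial_ne_zero
  exact div_self h3

lemma chiPN_at_one (N : ℕ) : chiPN N 1 = N + 1 := by
  unfold chiPN
  have h1 : ∏ j ∈ range N, ((1 : ℂ) + j + 1) = (N + 1).factorial := by
    rw [← prod_range_add_one_eq_factorial, prod_range_succ']
    push_cast
    simp only [mul_one]
    refine prod_congr rfl fun j _ => by ring
  rw [h1, Nat.factorial_succ]
  have h3 : (N.factorial : ℂ) ≠ 0 := by exact_mod_cast N.factorial_ne_zero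
  push_cast
  field_simp

section

variable {r : ℕ} (β : Fin r → ℂ)

/-- the proper nonempty subsets -/
def mid (r : ℕ) : Finset (Finset (Fin r)) := (univ.erase ∅).erase univ

lemma mem_mid {S : Finset (Fin r)} : S ∈ mid r ↔ S ≠ univ ∧ S ≠ ∅ := by
  simp [mid]

lemma card_mid (hr : 0 < r) : (mid r).card = 2 ^ r - 2 := by
  unfold mid
  rw [card_erase_of_mem, card_erase_of_mem (mem_univ _)]
  · simp only [card_univ, Fintype.card_finset, Fintype.card_fin]
    omega
  · rw [mem_erase]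
    refine ⟨?_, mem_univ _⟩
    intro h
    have := congrArg Finset.card h
    simp at this
    omega

/-- the sum over the proper nonempty subsets -/
noncomputable def wsum (N : ℕ) (x : ℂ) : ℂ :=
  ∑ S ∈ mid r, (-1) ^ S.card * chiPN N (x - ∑ j ∈ S, β j)

lemma sum_split (hr : 0 < r) (f : Finset (Fin r) → ℂ) :
    ∑ S : Finset (Fin r), f S = f ∅ + f univ + ∑ S ∈ mid r, f S := by
  have h1 : (univ : Finset (Fin r)) ∈ (univ : Finset (Finset (Fin r))).erase ∅ := by
    rw [mem_erase]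
    refine ⟨?_, mem_univ _⟩
    intro h
    have := congrArg Finset.card h
    simp at this
    omega
  rw [← add_sum_erase _ f (mem_univ ∅), ← add_sum_erase _ f h1]
  unfold mid
  ring

lemma chiX_split (hr : 0 < r) (N : ℕ) (x : ℂ) :
    chiX N β x = chiPN N x + (-1) ^ r * chiPN N (x - ∑ j, β j) + wsum β N x := by
  unfold chiX wsum
  rw [sum_split hr]
  simp

lemma wsum_symm (N : ℕ) (x y : ℂ) (h : x + y + N + 1 = ∑ j, β j) :
    wsum β N x = (-1) ^ (N + r) * wsum β N y := by
  unfold wsum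
  rw [mul_sum]
  refine sum_nbij' (fun S => Sᶜ) (fun S => Sᶜ) ?_ ?_ ?_ ?_ ?_
  · intro S hS
    rw [mem_mid] at hS ⊢
    refine ⟨?_, ?_⟩
    · intro h; exact hS.2 (by simpa using h)
    · intro h; exact hS.1 (by simpa using h)
  · intro S hS
    rw [mem_mid] at hS ⊢
    refine ⟨?_, ?_⟩
    · intro h; exact hS.2 (by simpa using h)
    · intro h; exact hS.1 (by simpa using h)
  · intro S _; simp
  · intro S _; simp
  · intro S _
    have h1 : ∑ j ∈ Sᶜ, β j = ∑ j, β j - ∑ j ∈ S, β j := by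
      rw [← sum_add_sum_compl S]
      ring
    have h2 : x - ∑ j ∈ S, β j = -N - 1 - (y - ∑ j ∈ Sᶜ, β j) := by
      rw [h1]
      linear_combination h
    have h3 : S.card + Sᶜ.card = r := by
      rw [card_add_card_compl]
      simp
    have h5 : ((-1 : ℂ)) ^ r = (-1) ^ (S.card + Sᶜ.card) := by rw [h3]
    have h4 : ((-1 : ℂ)) ^ S.card = (-1) ^ r * (-1) ^ Sᶜ.card := by
      rw [h5, pow_add, mul_assoc, ← mul_pow]
      simp
    rw [h2, chiPN_symm, h4, pow_add]
    ring

/-- **The main lemma.** -/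
theorem main_int (N i c d : ℕ) (hr0 : 0 < r) (hi : 1 ≤ i) (hc : c + i = N + 1)
    (hid : i + 2 * d ≤ N) (hsum : ∑ j, β j = c) (hri : 2 ^ r ≤ i + 2 * d + 3)
    (hint : ∀ j, IsIntegral ℤ (β j)) (h0 : ∀ j, β j ≠ 0)
    (hK : ∀ t : ℤ, -(i : ℤ) < t → t < 0 → chiX N β t = 0)
    (hZ : ∀ t : ℕ, t ≤ d → chiX N β t = chiPN N t) (j₀ : Fin r) : ∃ n : ℤ, β j₀ = n := by
  classical
  -- the sums over the proper nonempty subsets vanish
  have hW1 : ∀ t : ℤ, -(i : ℤ) < t → t ≤ d → wsum β N t = 0 := by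
    intro t h1 h2
    have h3 := chiX_split β hr0 N t
    have h4 : chiPN N ((t : ℂ) - ∑ j, β j) = 0 := by
      have h5 : ((t : ℂ) - ∑ j, β j) = ((t - c : ℤ) : ℂ) := by
        rw [hsum]
        push_cast
        ring
      rw [h5]
      exact chiPN_zero N _ (by omega) (by omega)
    rw [h4, mul_zero, add_zero] at h3
    rcases lt_or_ge t 0 with ht | ht
    · rw [hK t h1 ht, chiPN_zero N t (by omega) (by omega)] at h3
      simpa using h3.symm
    · obtain ⟨t', rfl⟩ : ∃ t' : ℕ, t = t' := ⟨t.toNat, by omega⟩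
      have h6 := hZ t' (by omega)
      rw [Int.cast_natCast] at h3 ⊢
      rw [h6] at h3
      linear_combination -h3
  have hW : ∀ t : ℤ, -(i : ℤ) - d ≤ t → t ≤ d → wsum β N t = 0 := by
    intro t h1 h2
    rcases lt_or_ge (-(i : ℤ)) t with ht | ht
    · exact hW1 t ht h2
    · have hcc : (c : ℂ) + i = N + 1 := by exact_mod_cast hc
      rw [wsum_symm β N (t : ℂ) ((-i - t : ℤ) : ℂ) (by
        rw [hsum]
        push_cast
        linear_combination -hcc)]
      rw [hW1 _ (by omega) (by omega), mul_zero]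
  -- in terms of the exponents
  set T : Finset (Fin r) → ℂ := fun S => (c : ℂ) - 1 - d - ∑ j ∈ S, β j with hT
  set w : Finset (Fin r) → ℂ := fun S => (-1) ^ S.card with hw
  have h1 : ∀ τ : ℕ, τ ≤ i + 2 * d → ∑ S ∈ mid r, w S * cb (T S + τ) N = 0 := by
    intro τ hτ
    have h2 := hW ((τ : ℤ) - i - d) (by omega) (by omega)
    unfold wsum at h2
    rw [← h2]
    refine sum_congr rfl fun S _ => ?_
    rw [chiPN_eq_cb]
    have hcc : (c : ℂ) + i = N + 1 := by exact_mod_cast hc
    congr 2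
    rw [hT]
    push_cast
    linear_combination hcc
  have h2 := pascal_descend (mid r) w T N (i + 2 * d) h1
  set κ : ℕ := N - (i + 2 * d) with hκ
  set D : ℕ := i + 2 * d with hD
  have h3 : ∀ b : ℕ, b ≤ D → ∑ S ∈ mid r, w S * cb (T S) (κ + b) = 0 := by
    intro b hb
    have h4 := h2 (D - b) (by omega) 0 (by omega)
    have h5 : N - (D - b) = κ + b := by omega
    rw [h5] at h4
    simpa using h4
  have hcard : (mid r).card ≤ D + 1 := by
    rw [card_mid hr0]
    omega
  have h4 := fun γ hγ => zero_estimate (mid r) w T κ D h3 hcard γ hγ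
  -- periodicity
  refine int_of_periodic β hint h0 ?_ j₀
  intro z
  set p : ℂ := 2 * Real.pi * Complex.I with hp
  have hE : ∀ y : ℂ, ∏ j, (1 - Complex.exp (-(β j * y))) =
      1 + (-1) ^ r * Complex.exp (-(c * y)) +
        ∑ S ∈ mid r, w S * Complex.exp (-((c - 1 - d - T S) * y)) := by
    intro y
    have h5 : ∏ j, (1 - Complex.exp (-(β j * y))) =
        ∑ S : Finset (Fin r), w S * Complex.exp (-((∑ j ∈ S, β j) * y)) := by
      have h6 : ∀ j, (1 - Complex.exp (-(β j * y))) = 1 + -Complex.exp (-(β j * y)) :=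
        fun j => by ring
      rw [prod_congr rfl fun j _ => h6 j, prod_one_add]
      rw [powerset_univ]
      refine sum_congr rfl fun S _ => ?_
      rw [prod_neg, hw, sum_mul, ← sum_neg_distrib, Complex.exp_sum]
    rw [h5, sum_split hr0]
    congr 1
    · rw [hw, ← hsum]
      simp
    · refine sum_congr rfl fun S _ => ?_
      rw [hT]
      ring_nf
  rw [hE, hE]
  have hexp : ∀ (n : ℤ), Complex.exp (-((n : ℂ) * (z + p))) = Complex.exp (-((n : ℂ) * z)) := by
    intro n
    rw [Complex.exp_eq_exp_iff_exists_int]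
    refine ⟨-n, ?_⟩
    push_cast
    rw [hp]
    ring
  have h7 : Complex.exp (-((c : ℂ) * (z + p))) = Complex.exp (-((c : ℂ) * z)) := by
    have := hexp c
    simpa using this
  rw [h7]
  congr 1
  rw [← sub_eq_zero, ← sum_sub_distrib]
  have h8 : ∀ S ∈ mid r, w S * Complex.exp (-((c - 1 - d - T S) * (z + p))) -
      w S * Complex.exp (-((c - 1 - d - T S) * z)) =
      w S * (fun γ => Complex.exp (-(((c : ℂ) - 1 - d - γ) * (z + p))) -
        Complex.exp (-(((c : ℂ) - 1 - d - γ) * z))) (T S) := fun S _ => by ring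
  rw [sum_congr rfl h8]
  rw [← sum_fiberwise_of_maps_to (t := (mid r).image T) (g := T)
    (fun S hS => mem_image_of_mem T hS)]
  refine sum_eq_zero fun γ _ => ?_
  have h9 : ∀ S ∈ (mid r).filter (fun S => T S = γ), w S * (fun γ =>
      Complex.exp (-(((c : ℂ) - 1 - d - γ) * (z + p))) -
        Complex.exp (-(((c : ℂ) - 1 - d - γ) * z))) (T S) = w S *
      (Complex.exp (-(((c : ℂ) - 1 - d - γ) * (z + p))) -
        Complex.exp (-(((c : ℂ) - 1 - d - γ) * z))) := by
    intro S hS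
    rw [(mem_filter.mp hS).2]
  rw [sum_congr rfl h9, ← sum_mul]
  by_cases hγ : ∃ n : ℤ, γ = n
  · obtain ⟨n, rfl⟩ := hγ
    have h10 : (c : ℂ) - 1 - d - n = ((c - 1 - d - n : ℤ) : ℂ) := by push_cast; ring
    rw [h10, hexp, sub_self, mul_zero]
  · rw [h4 γ fun e _ he => hγ ⟨e, by rw [he]; simp⟩, zero_mul]

end

end Pool.Agent.J4.H6.CI
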