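import Mathlib
import Pool.Agent.J4.H6.CI.Main

/-!
# Smooth Fano subvarieties of large index: the Chern roots of the normal bundle are integers
-/

set_option autoImplicit false

namespace Pool.Agent.J4.H6.CI

open Finset Polynomial

/-- a polynomial with alternating coefficients has no negative integral roots -/
lemma no_neg_root (r : ℕ) (Q : ℤ[X]) (hQ : Q.Monic) (hd : Q.natDegree = r)
    (hpos : ∀ k ≤ r, 0 ≤ (-1) ^ (r - k) * Q.coeff k) (m : ℤ) (hm : 0 < m) : Q.eval (-m) ≠ 0 := by
  have h1 : (-1) ^ r * Q.eval (-m) = ∑ k ∈ range (r + 1), ((-1) ^ (r - k) * Q.coeff k) * m ^ k := by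
    rw [eval_eq_sum_range, hd, mul_sum]
    refine sum_congr rfl fun k hk => ?_
    have hk' : k ≤ r := by
      have := mem_range.mp hk
      omega
    have h2 : ((-1 : ℤ)) ^ r = (-1) ^ (r - k) * (-1) ^ k := by
      rw [← pow_add]
      congr 1
      omega
    have h3 : (-m) ^ k = (-1) ^ k * m ^ k := by
      rw [← mul_pow]
      ring
    have h4 : ((-1 : ℤ)) ^ k * (-1) ^ k = 1 := by
      rw [← mul_pow]
      simp
    rw [h2, h3]
    linear_combination ((-1) ^ (r - k) * Q.coeff k * m ^ k) * h4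
  intro h
  rw [h, mul_zero] at h1
  have h5 : (((-1) ^ (r - r) * Q.coeff r) * m ^ r : ℤ) = m ^ r := by
    have : Q.coeff r = 1 := by
      rw [← hd]
      exact hQ
    rw [this]
    simp
  have h6 : 0 < ∑ k ∈ range (r + 1), ((-1) ^ (r - k) * Q.coeff k) * m ^ k := by
    refine sum_pos' (fun k hk => ?_) ⟨r, by simp, ?_⟩
    · have hk' : k ≤ r := by
        have := mem_range.mp hk
        omega
      exact mul_nonneg (hpos k hk') (pow_nonneg hm.le _)
    · rw [h5]
      exact pow_pos hm _
  rw [← h1] at h6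
  exact lt_irrefl _ h6

/-- **Smooth Fano subvarieties of large index.** -/
theorem main (N r s : ℕ) (hr : 1 ≤ r) (P : ℤ[X]) (β : Fin r → ℂ)
    (hβ : P.map (Int.castRingHom ℂ) = ∏ j, (X - C (β j)))
    (hpos : ∀ k ≤ r, 0 ≤ (-1) ^ (r - k) * (P.comp (X + 1)).coeff k)
    (i : ℕ) (hi : 1 ≤ i) (hci : (i : ℂ) = N + 1 - ∑ j, β j) (his : i + 2 * s ≤ N)
    (hri : 2 ^ r ≤ i + 2 * s + 3)
    (hK : ∀ t : ℤ, -(i : ℤ) < t → t < 0 → chiX N β t = 0)
    (hZ : ∀ t : ℕ, t ≤ s → chiX N β t = chiPN N t) :
    ∃ a : Fin r → ℕ, (∀ j, s < a j) ∧ P = ∏ j, (X - C (a j : ℤ)) := by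
  classical
  have hinj : Function.Injective (Int.castRingHom ℂ) := RingHom.injective_int _
  have hPm : P.Monic := by
    refine Polynomial.monic_of_injective hinj ?_
    rw [hβ]
    exact monic_prod_of_monic _ _ fun f _ => monic_X_sub_C _
  have hdeg : P.natDegree = r := by
    rw [← Polynomial.natDegree_map_eq_of_injective hinj, hβ,
      natDegree_prod_of_monic _ _ fun f _ => monic_X_sub_C _]
    simp
  set Q : ℤ[X] := P.comp (X + 1) with hQ
  have hX1 : (X + 1 : ℤ[X]) = X + C 1 := by simp
  have hQm : Q.Monic := by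
    rw [hQ, hX1]
    exact hPm.comp_X_add_C 1
  have hQd : Q.natDegree = r := by
    rw [hQ, natDegree_comp, hdeg, hX1, natDegree_X_add_C, mul_one]
  have hroot : ∀ j, (P.map (Int.castRingHom ℂ)).eval (β j) = 0 := by
    intro j
    rw [hβ, eval_prod]
    exact prod_eq_zero (mem_univ j) (by simp)
  have hint : ∀ j, IsIntegral ℤ (β j) := by
    intro j
    refine ⟨P, hPm, ?_⟩
    rw [← eval_map]
    exact hroot j
  -- the integral roots are positive
  have hge : ∀ j (n : ℤ), β j = n → 1 ≤ n := by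
    intro j n hn
    by_contra hlt
    have h1 : P.eval n = 0 := by
      have h2 := hroot j
      rw [hn, show ((n : ℤ) : ℂ) = Int.castRingHom ℂ n by simp, eval_map_apply] at h2
      exact hinj (by simpa using h2)
    refine no_neg_root r Q hQm hQd hpos (1 - n) (by omega) ?_
    rw [hQ, eval_comp]
    simpa using h1
  have h0 : ∀ j, β j ≠ 0 := by
    intro j h
    have := hge j 0 (by simpa using h)
    omega
  -- the first Chern class
  obtain ⟨c, hc⟩ : ∃ c : ℤ, ∑ j, β j = c := by
    refine ⟨N + 1 - i, ?_⟩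
    push_cast
    linear_combination hci
  have hci' : (c : ℤ) + i = N + 1 := by
    have : ((c + i : ℤ) : ℂ) = ((N + 1 : ℤ) : ℂ) := by
      push_cast
      rw [← hc]
      linear_combination hci
    exact_mod_cast this
  obtain ⟨c', rfl⟩ : ∃ c' : ℕ, c = c' := ⟨c.toNat, by omega⟩
  have hall := fun j₀ => main_int β N i c' s hr hi (by omega) his
    (by rw [hc]; simp) hri hint h0 hK hZ j₀
  choose n hn using hall
  have hn1 : ∀ j, 1 ≤ n j := fun j => hge j (n j) (hn j)
  -- all roots are larger than `s`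
  have hn2 : ∀ j, (s : ℤ) < n j := by
    have : Nonempty (Fin r) := ⟨⟨0, hr⟩⟩
    obtain ⟨j₁, -, hj₁⟩ := exists_min_image (univ : Finset (Fin r)) n univ_nonempty
    intro j
    refine lt_of_lt_of_le ?_ (hj₁ j (mem_univ j))
    by_contra hcon
    push Not at hcon
    obtain ⟨m, hm⟩ : ∃ m : ℕ, n j₁ = m := ⟨(n j₁).toNat, by have := hn1 j₁; omega⟩
    have hm1 : 1 ≤ m := by have := hn1 j₁; omega
    have hmin : ∀ j, (m : ℤ) ≤ n j := fun j => hm ▸ hj₁ j (mem_univ j)
    have hsum : ∀ S : Finset (Fin r), ∑ j ∈ S, β j = ((∑ j ∈ S, n j : ℤ) : ℂ) := by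
      intro S
      push_cast
      exact sum_congr rfl fun j _ => hn j
    have hcn : ∑ j, n j = c' := by
      have := hsum univ
      rw [hc] at this
      exact_mod_cast this.symm
    -- the values of the summands
    have hval : ∀ S : Finset (Fin r), S ≠ ∅ → (-1) ^ S.card * chiPN N (m - ∑ j ∈ S, β j) = -1 ∨
        (-1) ^ S.card * chiPN N (m - ∑ j ∈ S, β j) = 0 := by
      intro S hS
      have h1 : (S.card : ℤ) * m ≤ ∑ j ∈ S, n j := by
        have := sum_le_sum (s := S) fun j _ => hmin j
        simpa using this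
      have h2 : 1 ≤ S.card := Finset.card_pos.mpr (nonempty_of_ne_empty hS)
      have h3 : ∑ j ∈ S, n j ≤ c' := by
        rw [← hcn]
        exact sum_le_sum_of_subset_of_nonneg (subset_univ _) fun j _ _ => by
          have := hn1 j; omega
      rcases (show S.card = 1 ∨ 2 ≤ S.card by omega) with h4 | h4
      · rcases (show ∑ j ∈ S, n j = m ∨ (m : ℤ) + 1 ≤ ∑ j ∈ S, n j by
          rw [h4] at h1
          push_cast at h1
          omega) with h5 | h5
        · left
          rw [hsum, h5, h4, pow_one, Int.cast_natCast, sub_self, chiPN_at_zero]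
          ring
        · right
          rw [hsum]
          have h6 : (m : ℂ) - ((∑ j ∈ S, n j : ℤ) : ℂ) = ((m - ∑ j ∈ S, n j : ℤ) : ℂ) := by
            push_cast
            ring
          rw [h6, chiPN_zero N _ (by omega) (by omega), mul_zero]
      · right
        have h7 : (2 : ℤ) * m ≤ S.card * m := by
          have : (2 : ℤ) ≤ S.card := by exact_mod_cast h4
          nlinarith
        rw [hsum]
        have h6 : (m : ℂ) - ((∑ j ∈ S, n j : ℤ) : ℂ) = ((m - ∑ j ∈ S, n j : ℤ) : ℂ) := by
          push_cast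
          ring
        rw [h6, chiPN_zero N _ (by omega) (by omega), mul_zero]
    have h1 : chiX N β m = chiPN N m + ∑ S ∈ (univ : Finset (Finset (Fin r))).erase ∅,
        (-1) ^ S.card * chiPN N (m - ∑ j ∈ S, β j) := by
      unfold chiX
      rw [← add_sum_erase _ _ (mem_univ ∅)]
      simp
    rw [hZ m (by omega)] at h1
    have h2 : ∑ S ∈ (univ : Finset (Finset (Fin r))).erase ∅,
        (-1) ^ S.card * chiPN N (m - ∑ j ∈ S, β j) = 0 := by
      linear_combination -h1
    have h3 : ∑ S ∈ (univ : Finset (Finset (Fin r))).erase ∅,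
        ((-1) ^ S.card * chiPN N (m - ∑ j ∈ S, β j)).re = 0 := by
      rw [← Complex.re_sum, h2]
      simp
    have h4 : ∑ S ∈ (univ : Finset (Finset (Fin r))).erase ∅,
        ((-1) ^ S.card * chiPN N (m - ∑ j ∈ S, β j)).re < 0 := by
      refine sum_neg' (fun S hS => ?_) ⟨{j₁}, ?_, ?_⟩
      · rcases hval S (mem_erase.mp hS).1 with h5 | h5
        · rw [h5]; simp
        · rw [h5]; simp
      · rw [mem_erase]
        exact ⟨by simp, mem_univ _⟩
      · rw [sum_singleton, hn j₁, hm, Int.cast_natCast, sub_self]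
        simp [chiPN_at_zero]
    rw [h3] at h4
    exact lt_irrefl _ h4
  refine ⟨fun j => (n j).toNat, fun j => ?_, ?_⟩
  · have := hn2 j
    show s < (n j).toNat
    omega
  · refine Polynomial.map_injective _ hinj ?_
    rw [hβ, Polynomial.map_prod]
    refine prod_congr rfl fun j _ => ?_
    have h1 : ((n j).toNat : ℤ) = n j := Int.toNat_of_nonneg (by have := hn2 j; omega)
    simp only [Polynomial.map_sub, map_X, Polynomial.map_C, h1, hn j]
    simp

end Pool.Agent.J4.H6.CI
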