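import Mathlib
import Pool.Agent.J4.H6.CI.Fin

/-!
# Smooth Fano subvarieties of large index of projective spaces are numerically complete intersections

Let `X ⊂ ℙ^N` be a smooth subvariety of codimension `r` which spans `ℙ^N`, `N ≥ 4 r`, with
`ω_X = O_X(-i)`, `i ≥ 1`. By Barth and Larsen the Chern classes of the normal bundle are integral
multiples `c_j h^j` of the powers of the hyperplane class; let `β_1, ..., β_r` be the Chern roots, the
complex roots of `P = T^r - c₁ T^(r-1) + c₂ T^(r-2) - ...`. Then `c_r = deg X` (self-intersection
formula) and `c₁ = N + 1 - i`. `X` is numerically a complete intersection of hypersurfaces of degrees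
`a_1, ..., a_r` if and only if `P = ∏ (T - a_j)`: then it has the degree, the Chern classes and the
Hilbert polynomial of the complete intersection. The following is known:

* by the theorem of Riemann and Roch `χ(O_X(t))` is the Koszul sum `chiX N β t`;
* `N_X(-1)`, a quotient of `T_ℙ(-1)`, is globally generated, so its Chern classes are not negative:
  the coefficients of `P(T + 1)` have alternating signs;
* by Kodaira's vanishing theorem `χ(O_X(t)) = 0` for `-i < t < 0` and `χ(O_X(t)) = h⁰(O_X(t))` for
  `t ≥ 0`; so `χ(O_X) = 1`, and `χ(O_X(1)) = N + 1` by Zak's theorem on linear normality: the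
  condition `hZ` below is true for `s = 1`. For a given `s` it is true if `X` is not contained in
  a hypersurface of degree `≤ s` and the hypersurfaces of degree `t` cut out complete linear systems
  for `t ≤ s`;
* `i ≤ dim X` if `X` is not a linear space (Kobayashi and Ochiai), so `i + 2 ≤ N`.

We show: if `i ≥ 2^r - 5`, then all `β_j` are integers, at least `2`: `X` is numerically a complete
intersection. More generally this holds if `i ≥ 2^r - 3 - 2 s`, with `β_j > s`.

The proof. The conditions and Serre duality `χ(O_X(-i-t)) = (-1)^(N-r) χ(O_X(t))` say that the sum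
`Σ (-1)^|S| C(N + t - β_S, N)` over the subsets `S` of the set of the Chern roots, without the empty and
the full set, is zero for the `i + 2 s + 1` integers `t` from `-i - s` to `s`. This is a linear
functional on polynomials, with a support of at most `2^r - 2` points, which vanishes on the multiples
of degree `≤ N` of a polynomial of degree `N - i - 2 s` with integral zeros. So by interpolation the
multiplicities of all non-integral exponents cancel in
`∏ (1 - e^(-β_j z)) = Σ (-1)^|S| e^(-β_S z)`. This function of `z` has therefore the period `2 π i`,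
and so has the set of its zeros `2 π i n / β_j`; hence the algebraic integers `β_j` are rational.
-/

set_option autoImplicit false

namespace Pool.Agent.Results.MP_014caa_ag.FanoIndex

open Polynomial

/-- `χ(ℙ^N, O(x)) = (x + 1) ... (x + N) / N!`. -/
noncomputable def chiPN (N : ℕ) (x : ℂ) : ℂ :=
  (∏ j ∈ Finset.range N, (x + j + 1)) / N.factorial

/-- `χ(O_X(x)) = Σ_S (-1)^|S| χ(ℙ^N, O(x - β_S))`, `S` running over the subsets of the set of indices
of the Chern roots `β_j` of the normal bundle, `β_S = Σ_(j ∈ S) β_j`. -/
noncomputable def chiX (N : ℕ) {r : ℕ} (β : Fin r → ℂ) (x : ℂ) : ℂ :=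
  ∑ S : Finset (Fin r), (-1) ^ S.card * chiPN N (x - ∑ j ∈ S, β j)

/-- **Smooth Fano subvarieties of codimension `r` and index at least `2^r - 3 - 2 s`**; `s = 1` is
the case of all nondegenerate smooth Fano subvarieties, of index at least `2^r - 5`. -/
theorem result (N r s : ℕ) (hr : 1 ≤ r)
    -- the Chern polynomial of the normal bundle and the Chern roots
    (P : ℤ[X]) (β : Fin r → ℂ) (hβ : P.map (Int.castRingHom ℂ) = ∏ j, (X - C (β j)))
    -- the Chern classes of the normal bundle, twisted by `-1`, are not negative
    (hpos : ∀ k ≤ r, 0 ≤ (-1) ^ (r - k) * (P.comp (X + 1)).coeff k)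
    -- `X` is a Fano variety of index `i`: `ω_X = O_X(-i)`, `-i = c₁ - N - 1`
    (i : ℕ) (hi : 1 ≤ i) (hci : (i : ℂ) = N + 1 - ∑ j, β j) (his : i + 2 * s ≤ N)
    -- the index is at least `2^r - 3 - 2 s`
    (hri : 2 ^ r ≤ i + 2 * s + 3)
    -- the vanishing theorem of Kodaira
    (hK : ∀ t : ℤ, -(i : ℤ) < t → t < 0 → chiX N β t = 0)
    -- `h⁰(O_X(t)) = h⁰(ℙ^N, O(t))` for `t ≤ s` (for `s = 1`: linear normality)
    (hZ : ∀ t : ℕ, t ≤ s → chiX N β t = chiPN N t) :
    -- `X` is numerically a complete intersection of hypersurfaces of degrees `a_j > s`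
    ∃ a : Fin r → ℕ, (∀ j, s < a j) ∧ P = ∏ j, (X - C (a j : ℤ)) :=
  Pool.Agent.J4.H6.CI.main N r s hr P β hβ hpos i hi hci his hri hK hZ

end Pool.Agent.Results.MP_014caa_ag.FanoIndex
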